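import Pool.Agent.Helper6.O3.St

/-!
# Project O3: module AC (completeness, degenerate case)
-/

set_option autoImplicit false

namespace Pool.Agent.Helper60.O3

open Pool.Agent.Helper6.O3 Filter Topology
open Pool.Agent.Helper99.DF (T TL sq chk Cert ver StVER StTRA StCMP StSND StPR1 StPRC StVP T_succ)

theorem dich (D : ℕ → ℚ) (M : ℕ) (h0 : ∀ k, 0 ≤ D k)
    (h : ∀ k, M ≤ k → D k ^ 2 = D (k - 1) * D (k + 1)) :
    (∀ k, M ≤ k → D k = 0) ∨ (∀ k, M ≤ k → 0 < D k) := by
  by_cases hM : D M = 0
  · left
    intro k hk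
    induction k, hk using Nat.le_induction with
    | base => exact hM
    | succ k hk ih =>
      have h1 := h (k + 1) (by omega)
      rw [show k + 1 - 1 = k by omega, ih, zero_mul] at h1
      exact pow_eq_zero_iff (two_ne_zero) |>.mp h1
  · right
    intro k hk
    refine lt_of_le_of_ne (h0 k) (Ne.symm ?_)
    induction k, hk using Nat.le_induction with
    | base => exact hM
    | succ k hk ih =>
      intro h2
      have h1 := h k hk
      rw [h2, mul_zero] at h1
      exact ih (pow_eq_zero_iff (two_ne_zero) |>.mp h1)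

theorem geo (D : ℕ → ℚ) (M : ℕ) (h0 : ∀ k, M ≤ k → 0 < D k)
    (h : ∀ k, M ≤ k → D k ^ 2 = D (k - 1) * D (k + 1)) (k : ℕ) (hk : M ≤ k) :
    D (k + 1) = D (M + 1) / D M * D k := by
  induction k, hk using Nat.le_induction with
  | base =>
    have := (h0 M le_rfl).ne'
    field_simp
  | succ k hk ih =>
    have h1 := h (k + 1) (by omega)
    rw [show k + 1 - 1 = k by omega] at h1
    have h2 := h0 k hk
    have h3 : D k * D (k + 1 + 1) = D k * (D (M + 1) / D M * D (k + 1)) := by
      rw [← h1, pow_two]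
      calc D (k + 1) * D (k + 1) = (D (M + 1) / D M * D k) * D (k + 1) := by rw [← ih]
        _ = _ := by ring
    exact mul_left_cancel₀ h2.ne' h3

theorem hAC (hOS : StOS) : StAC := by
  intro c N hinf hth
  have hc0 : ∀ k, 0 ≤ c k := fun k => hinf 0 k
  have hD0 : ∀ k, 0 ≤ T c k := fun k => hinf 1 k
  have hDD : ∀ k, N + 2 ≤ k → T c k ^ 2 = T c (k - 1) * T c (k + 1) := by
    intro k hk
    have h1 := TT_eq c k (by omega)
    rw [hth k (by omega), mul_zero] at h1
    have h2 : T (T c) k = T c k ^ 2 - T c (k - 1) * T c (k + 1) := rfl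
    rw [h2] at h1
    linarith
  rcases dich (T c) (N + 2) hD0 hDD with hz | hp
  · -- `T c` vanishes eventually
    have hcc : ∀ k, N + 2 ≤ k → c k ^ 2 = c (k - 1) * c (k + 1) := by
      intro k hk
      have h1 := hz k hk
      have h2 : T c k = c k ^ 2 - c (k - 1) * c (k + 1) := rfl
      rw [h2] at h1
      linarith
    rcases dich c (N + 2) hc0 hcc with hz' | hp'
    · refine ⟨N + 2, 0, 0, by omega, le_rfl, le_rfl, by norm_num, ?_, ?_⟩
      · intro i hi
        rw [hz' (i + 2) (by omega)]
        ring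
      · rw [hz' (N + 2 + 1) (by omega)]
        simp
    · have hg := geo c (N + 2) hp' hcc
      have hr : 0 < c (N + 2 + 1) / c (N + 2) := div_pos (hp' _ (by omega)) (hp' _ le_rfl)
      refine ⟨N + 2, c (N + 2 + 1) / c (N + 2), 0, by omega, hr.le, le_rfl, by
        rw [mul_zero]; exact sq_nonneg _, ?_, ?_⟩
      · intro i hi
        rw [zero_mul, sub_zero]
        exact hg (i + 1) (by omega)
      · have h3 := hg (N + 2) le_rfl
        rw [← h3]
        have := hc0 (N + 2 + 1)
        linarith
  · -- `T c` is positive eventually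
    have hpc : ∀ k, N + 2 ≤ k → 0 < c k := by
      intro k hk
      refine lt_of_le_of_ne (hc0 k) (Ne.symm ?_)
      intro h1
      have h2 := hp k hk
      have h3 : T c k = c k ^ 2 - c (k - 1) * c (k + 1) := rfl
      rw [h3, h1] at h2
      have h4 := mul_nonneg (hc0 (k - 1)) (hc0 (k + 1))
      nlinarith
    have hg := geo (T c) (N + 2) hp hDD
    obtain ⟨Q, hQ⟩ : ∃ Q, Q = T c (N + 2 + 1) / T c (N + 2) := ⟨_, rfl⟩
    rw [← hQ] at hg
    have hQ0 : 0 < Q := by
      rw [hQ]
      exact div_pos (hp _ (by omega)) (hp _ le_rfl)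
    obtain ⟨P, hP⟩ : ∃ P, P = (c (N + 2 + 2) + Q * c (N + 2)) / c (N + 2 + 1) := ⟨_, rfl⟩
    have hrec : ∀ k, N + 2 ≤ k → c (k + 2) + Q * c k = P * c (k + 1) := by
      intro k hk
      induction k, hk using Nat.le_induction with
      | base =>
        rw [hP]
        have := (hpc (N + 2 + 1) (by omega)).ne'
        field_simp
      | succ k hk ih =>
        have h1 := hg (k + 1) (by omega)
        have h2 : T c (k + 1) = c (k + 1) ^ 2 - c k * c (k + 2) := rfl
        have h3 : T c (k + 1 + 1) = c (k + 2) ^ 2 - c (k + 1) * c (k + 3) := rfl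
        rw [h2, h3] at h1
        have h4 := hpc (k + 1) (by omega)
        have h5 : c (k + 1) * (c (k + 1 + 2) + Q * c (k + 1)) = c (k + 1) * (P * c (k + 1 + 1)) := by
          have e1 : c (k + 1 + 2) = c (k + 3) := rfl
          have e2 : c (k + 1 + 1) = c (k + 2) := rfl
          rw [e1, e2]
          linear_combination (-1 : ℚ) * h1 + c (k + 2) * ih
        exact mul_left_cancel₀ h4.ne' h5
    obtain ⟨o1, o2, o3⟩ := hOS (fun n => ((c (n + (N + 2)) : ℚ) : ℝ)) (P : ℝ) (Q : ℝ)
      (fun n => by exact_mod_cast hpc _ (by omega)) (by exact_mod_cast hQ0)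
      (fun n => by
        have h1 := hrec (n + (N + 2)) (by omega)
        have e1 : n + 2 + (N + 2) = n + (N + 2) + 2 := by omega
        have e2 : n + 1 + (N + 2) = n + (N + 2) + 1 := by omega
        simp only [e1, e2]
        have h2 : c (n + (N + 2) + 2) = P * c (n + (N + 2) + 1) - Q * c (n + (N + 2)) := by
          linarith
        exact_mod_cast h2)
    have o4 := o3 (fun n => by
      have e1 : n + 2 + (N + 2) = n + (N + 2) + 2 := by omega
      have e2 : n + 1 + (N + 2) = n + (N + 2) + 1 := by omega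
      simp only [e1, e2]
      have h1 := hp (n + (N + 2) + 1) (by omega)
      have h2 : T c (n + (N + 2) + 1) =
        c (n + (N + 2) + 1) ^ 2 - c (n + (N + 2)) * c (n + (N + 2) + 2) := rfl
      rw [h2] at h1
      have h3 : c (n + (N + 2)) * c (n + (N + 2) + 2) < c (n + (N + 2) + 1) ^ 2 := by linarith
      exact_mod_cast h3) 0
    refine ⟨N + 2, P, Q, by omega, ?_, hQ0.le, ?_, ?_, ?_⟩
    · have : (0 : ℝ) ≤ (P : ℝ) := o2.le
      exact_mod_cast this
    · exact_mod_cast o1
    · intro i hi
      have := hrec i hi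
      linarith
    · have e1 : 0 + (N + 2) = N + 2 := by omega
      have e2 : 0 + 1 + (N + 2) = N + 2 + 1 := by omega
      simp only [e1, e2] at o4
      exact_mod_cast o4

end Pool.Agent.Helper60.O3
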